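import Pool.Agent.H218R3.Col7

set_option autoImplicit false

open Polynomial Filter

namespace Pool.Agent.Results.MP_c113aa_an.CollinearZeros

/-- For collinear zeros and `p > 1`: the minimum `σ` over the centres is attained, and either every
zero is at distance less than `σ` from some critical point, or the polynomial is of the form
`(X - c) ^ n - b`. -/
theorem result (n : ℕ) (hn : 2 ≤ n) (z : Fin n → ℂ)
    (hline : ∃ b u : ℂ, ∀ j, ∃ t : ℝ, z j = b + t * u) (p : ℝ) (hp : 1 < p) :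
    ∃ c₀ : ℂ, (∀ c : ℂ, ((1 / (n : ℝ)) * ∑ j : Fin n, ‖z j - c₀‖ ^ p) ^ (1 / p) ≤
        ((1 / (n : ℝ)) * ∑ j : Fin n, ‖z j - c‖ ^ p) ^ (1 / p)) ∧
      ((∀ k : Fin n, ∃ w : ℂ, (derivative (∏ j : Fin n, (X - C (z j)))).IsRoot w ∧
          ‖z k - w‖ < ((1 / (n : ℝ)) * ∑ j : Fin n, ‖z j - c₀‖ ^ p) ^ (1 / p)) ∨
        ∃ b c : ℂ, ∏ j : Fin n, (X - C (z j)) = (X - C c) ^ n - C b) := by
  have hn0 : 0 < n := by omega
  have hn' : (0 : ℝ) < n := by exact_mod_cast hn0
  have hp0 : 0 < p := by linarith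
  have hcont : Continuous (fun c : ℂ =>
      ((1 / (n : ℝ)) * ∑ j : Fin n, ‖z j - c‖ ^ p) ^ (1 / p)) := by
    apply Continuous.rpow_const
    · apply Continuous.mul continuous_const
      apply continuous_finsetSum
      intro j _
      apply Continuous.rpow_const
      · exact (continuous_const.sub continuous_id).norm
      · intro c; right; exact hp0.le
    · intro c; right; positivity
  have hlow : ∀ c : ℂ, ‖c‖ - (1 / (n : ℝ)) * ∑ j : Fin n, ‖z j‖ ≤
      ((1 / (n : ℝ)) * ∑ j : Fin n, ‖z j - c‖ ^ p) ^ (1 / p) := by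
    intro c
    refine le_trans ?_ (Pool.Agent.H218R3.Col.mean_le hn0 (fun j => ‖z j - c‖)
      (fun j => norm_nonneg _) hp.le)
    have h1 : ∀ j, ‖c‖ - ‖z j‖ ≤ ‖z j - c‖ := by
      intro j
      rw [norm_sub_rev]
      exact norm_sub_norm_le c (z j)
    have h2 : ∑ j : Fin n, (‖c‖ - ‖z j‖) ≤ ∑ j : Fin n, ‖z j - c‖ :=
      Finset.sum_le_sum fun j _ => h1 j
    rw [Finset.sum_sub_distrib, Finset.sum_const, Finset.card_univ, Fintype.card_fin,
      nsmul_eq_mul] at h2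
    have h3 := mul_le_mul_of_nonneg_left h2 (by positivity : (0 : ℝ) ≤ 1 / (n : ℝ))
    rw [mul_sub, ← mul_assoc, one_div_mul_cancel hn'.ne', one_mul] at h3
    exact h3
  have htend : Tendsto (fun c : ℂ =>
      ((1 / (n : ℝ)) * ∑ j : Fin n, ‖z j - c‖ ^ p) ^ (1 / p)) (cocompact ℂ) atTop := by
    apply tendsto_atTop_mono hlow
    exact tendsto_atTop_add_const_right _ _ (tendsto_norm_cocompact_atTop)
  obtain ⟨c₀, hc₀⟩ := hcont.exists_forall_le htend
  refine ⟨c₀, hc₀, ?_⟩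
  by_cases hform : ∃ b c : ℂ, ∏ j : Fin n, (X - C (z j)) = (X - C c) ^ n - C b
  · exact Or.inr hform
  · exact Or.inl fun k => Pool.Agent.H218R3.Col.borcea_strict hn z hline hp hform c₀ k

end Pool.Agent.Results.MP_c113aa_an.CollinearZeros
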